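import Mathlib
import Pool.Agent.Helper26.HB.Goals

/-!
# Packet HB-S3: a biadditive alternating function comes from a bilinear form
-/

set_option autoImplicit false

namespace Pool.Agent.Helper34.HB

open Pool.Agent.Helper26.HB

/-- additive functions on a group -/
def HH (N : Type) [Group N] : Submodule ℝ (N → ℝ) where
  carrier := {φ | ∀ x y, φ (x * y) = φ x + φ y}
  add_mem' := by
    intro a b ha hb x y
    simp only [Pi.add_apply]
    rw [ha x y, hb x y]
    ring
  zero_mem' := by
    intro x y
    simp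
  smul_mem' := by
    intro c a ha x y
    simp only [Pi.smul_apply, smul_eq_mul]
    rw [ha x y]
    ring

theorem mem_HH {N : Type} [Group N] {φ : N → ℝ} :
    φ ∈ HH N ↔ ∀ x y, φ (x * y) = φ x + φ y := Iff.rfl

theorem HH_one {N : Type} [Group N] (φ : HH N) : (φ : N → ℝ) 1 = 0 := by
  have h := φ.2 1 1
  rw [mul_one] at h
  linarith

theorem HH_inv {N : Type} [Group N] (φ : HH N) (x : N) :
    (φ : N → ℝ) x⁻¹ = - (φ : N → ℝ) x := by
  have h := φ.2 x⁻¹ x
  rw [inv_mul_cancel, HH_one] at h
  linarith

theorem HH_finite (N : Type) [Group N] (h : Group.FG N) : Module.Finite ℝ (HH N) := by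
  obtain ⟨X, hX⟩ := Group.fg_def.1 h
  let ev : HH N →ₗ[ℝ] (X → ℝ) :=
    { toFun := fun φ x => (φ : N → ℝ) x
      map_add' := by intro a b; ext x; simp
      map_smul' := by intro c a; ext x; simp }
  refine Module.Finite.of_injective ev ?_
  rw [← LinearMap.ker_eq_bot, LinearMap.ker_eq_bot']
  intro φ hφ
  ext x
  have hx : x ∈ Subgroup.closure (X : Set N) := by rw [hX]; trivial
  induction hx using Subgroup.closure_induction with
  | mem y hy =>
    have := congrFun hφ ⟨y, hy⟩
    simpa [ev] using this
  | one => simpa using HH_one φ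
  | mul a b _ _ ha hb =>
    have h2 := φ.2 a b
    rw [h2, ha, hb]
    simp
  | inv a _ ha =>
    rw [HH_inv φ a, ha]
    simp

theorem gS3 : G_S3 := by
  intro N _ hN β h1 h2 h3
  have : Module.Finite ℝ (HH N) := HH_finite N hN
  classical
  let b := Module.finBasis ℝ (HH N)
  let g : N → HH N := fun y => ⟨fun x => β x y, fun x x' => h1 x x' y⟩
  have g_add : ∀ y z, g (y * z) = g y + g z := by
    intro y z
    apply Subtype.ext
    funext x
    exact h2 x y z
  let c : Fin (Module.finrank ℝ (HH N)) → HH N := fun i =>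
    ⟨fun y => b.repr (g y) i, by
      intro y z
      change b.repr (g (y * z)) i = b.repr (g y) i + b.repr (g z) i
      rw [g_add, map_add, Finsupp.add_apply]⟩
  have hβ : ∀ x y, β x y = ∑ i, ∑ j, (b i : N → ℝ) x * (b.repr (c i) j) * (b j : N → ℝ) y := by
    intro x y
    have e1 : β x y = ∑ i, b.repr (g y) i * (b i : N → ℝ) x := by
      have e := congrArg (fun φ : HH N => (φ : N → ℝ) x) (b.sum_repr (g y))
      simp only [Submodule.coe_sum, Submodule.coe_smul, Finset.sum_apply, Pi.smul_apply,
        smul_eq_mul] at e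
      rw [e]
    rw [e1]
    refine Finset.sum_congr rfl fun i _ => ?_
    have e2 : b.repr (g y) i = ∑ j, b.repr (c i) j * (b j : N → ℝ) y := by
      have e := congrArg (fun φ : HH N => (φ : N → ℝ) y) (b.sum_repr (c i))
      simp only [Submodule.coe_sum, Submodule.coe_smul, Finset.sum_apply, Pi.smul_apply,
        smul_eq_mul] at e
      rw [e]
    rw [e2, Finset.sum_mul]
    refine Finset.sum_congr rfl fun j _ => ?_
    ring
  have hanti : ∀ x y, β y x = - β x y := by
    intro x y
    have e := h3 (x * y)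
    rw [h1, h2, h2, h3, h3] at e
    linarith
  let M : Matrix (Fin (Module.finrank ℝ (HH N))) (Fin (Module.finrank ℝ (HH N))) ℝ :=
    fun i j => b.repr (c i) j
  let B0 : Bil (Module.finrank ℝ (HH N)) := Matrix.toLinearMap₂' ℝ M
  have hB0 : ∀ x y, B0 (fun i => (b i : N → ℝ) x) (fun i => (b i : N → ℝ) y) = β x y := by
    intro x y
    rw [hβ x y]
    simp only [B0, Matrix.toLinearMap₂'_apply, M, smul_eq_mul]
    refine Finset.sum_congr rfl fun i _ => Finset.sum_congr rfl fun j _ => ?_
    ring
  refine ⟨Module.finrank ℝ (HH N), fun x i => (b i : N → ℝ) x, (1 / 2 : ℝ) • (B0 - B0.flip),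
    ?_, ?_, ?_⟩
  · intro x y
    funext i
    exact (b i).2 x y
  · intro v
    simp
  · intro x y
    simp only [LinearMap.smul_apply, LinearMap.sub_apply, LinearMap.flip_apply, smul_eq_mul]
    rw [hB0, hB0, hanti x y]
    ring

end Pool.Agent.Helper34.HB
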